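import Pool.Agent.W_2fbb77_h89.Final

/-!
MP_2fbb77_gt. Uniqueness of the anti-de Sitter convex core with given boundary metrics, for metrics and
manifolds with polygonal reflection symmetry.

The definitions are in `Pool/Agent/W_2fbb77_h89/Defs.lean`. `P` and `Q` are compact convex hyperbolic polygons with the
same angles `π / n i` (`n i ≥ 3`, at least four sides): the quotients of the metrics of the future and of the past
boundary component by the reflection group. `N` and `N'` are two anti-de Sitter convex cores with this symmetry and
with these boundary metrics. There is an isometry of anti-de Sitter space that maps the mirrors, the future boundary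
component and the past boundary component of the first to those of the second.
-/

set_option autoImplicit false

namespace Pool.Agent.Results.MP_2fbb77_gt.PolygonalUniqueness

open Pool.Agent.Ads89

theorem result (k : ℕ) (hk : 4 ≤ k) (n : ℤ → ℕ) (hn : ∀ i : ℤ, 3 ≤ n i) (P Q : Polygon k n)
    (N N' : Core P Q) :
    ∃ Φ : (Fin 4 → ℝ) ≃ₗ[ℝ] (Fin 4 → ℝ), (∀ x y, ads (Φ x) (Φ y) = ads x y) ∧
      (∀ i : ℤ, Φ (N.u i) = N'.u i) ∧ (∀ x ∈ H2, Φ (N.fp x) = N'.fp x) ∧
      ∀ x ∈ H2, Φ (N.fm x) = N'.fm x :=
  unique hk hn N N'

end Pool.Agent.Results.MP_2fbb77_gt.PolygonalUniqueness
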